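import Pool.Agent.Run7.h932.RG.Stm

set_option autoImplicit false

namespace Run7.h925.RG

open Finset Classical Run7.h932.RG

/-- Sum over configurations of a product over the coordinates. -/
theorem sum_prod2 {n : ℕ} (f : Fin n → Fin n → Bool → ℝ) :
    ∑ ω : Fin n → Fin n → Bool, ∏ y, ∏ x, f y x (ω y x) =
      ∏ y, ∏ x, (f y x true + f y x false) := by
  have h1 : ∀ g : Fin n → Bool → ℝ,
      ∑ v : Fin n → Bool, ∏ x, g x (v x) = ∏ x, (g x true + g x false) := by
    intro g
    have := (Finset.prod_univ_sum (fun _ : Fin n => (univ : Finset Bool)) g).symm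
    rw [Fintype.piFinset_univ] at this
    rw [this]
    refine Finset.prod_congr rfl fun x _ => ?_
    simp
  have h2 := (Finset.prod_univ_sum (fun _ : Fin n => (univ : Finset (Fin n → Bool)))
    (fun (y : Fin n) (v : Fin n → Bool) => ∏ x, f y x (v x))).symm
  rw [Fintype.piFinset_univ] at h2
  rw [h2]
  exact Finset.prod_congr rfl fun y _ => h1 _

theorem t_TOT : S_TOT := by
  intro n p h0 h1
  constructor
  · intro ω
    refine Finset.prod_nonneg fun y _ => Finset.prod_nonneg fun x _ => ?_
    unfold wt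
    split_ifs
    · exact h0 _ _
    · linarith [h1 x y]
  · unfold mu
    rw [sum_prod2 (fun y x b => wt (p x y) b)]
    simp [wt]

/-- The weight of a colouring as a product. -/
theorem ind_pow {n k : ℕ} (r : ℝ) (ω : Fin n → Fin n → Bool) (σ : Fin n → Fin k) :
    (if Prp ω σ then (1 : ℝ) else 0) * r ^ ms ω =
      ∏ y, ∏ x, (if x < y ∧ ω y x = true then (if σ x = σ y then 0 else r) else 1) := by
  by_cases h : Prp ω σ
  · rw [if_pos h, one_mul]
    have h1 : ∀ y x : Fin n, (if x < y ∧ ω y x = true then (if σ x = σ y then 0 else r) else 1) =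
        (if x < y ∧ ω y x = true then r else 1) := by
      intro y x
      by_cases h2 : x < y ∧ ω y x = true
      · rw [if_pos h2, if_pos h2, if_neg (h x y h2.1 h2.2)]
      · rw [if_neg h2, if_neg h2]
    simp only [h1]
    rw [← Finset.prod_product' univ univ (fun y x => if x < y ∧ ω y x = true then r else 1)]
    rw [Finset.prod_ite, Finset.prod_const, Finset.prod_const_one, mul_one]
    congr 1
    unfold ms
    refine Finset.card_bij' (fun z _ => (z.2, z.1)) (fun z _ => (z.2, z.1)) ?_ ?_ ?_ ?_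
    · intro z hz
      simpa using hz
    · intro z hz
      simpa using hz
    · intro z hz
      rfl
    · intro z hz
      rfl
  · rw [if_neg h, zero_mul]
    unfold Prp at h
    push Not at h
    obtain ⟨x, y, hxy, hω, hs⟩ := h
    symm
    refine Finset.prod_eq_zero (mem_univ y) (Finset.prod_eq_zero (mem_univ x) ?_)
    rw [if_pos ⟨hxy, hω⟩, if_pos hs]

theorem t_MOM2 : S_MOM2 := by
  intro n k p σ τ hk h0 h1
  set r : ℝ := (k : ℝ) / (k - 1) with hr
  have hk' : (2 : ℝ) ≤ k := by exact_mod_cast hk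
  have hr1 : 1 ≤ r := by
    rw [hr, le_div_iff₀ (by linarith)]
    linarith
  have ha : 1 ≤ r ^ 2 := one_le_pow₀ hr1
  have e1 : ∀ ω : Fin n → Fin n → Bool,
      mu p ω * (((if Prp ω σ then 1 else 0) * r ^ ms ω) * ((if Prp ω τ then 1 else 0) * r ^ ms ω)) =
      ∏ y, ∏ x, (fun (y x : Fin n) (b : Bool) => wt (p x y) b *
        ((if x < y ∧ b = true then (if σ x = σ y then 0 else r) else 1) *
        (if x < y ∧ b = true then (if τ x = τ y then 0 else r) else 1))) y x (ω y x) := by
    intro ω
    rw [ind_pow, ind_pow]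
    unfold mu
    simp only [Finset.prod_mul_distrib]
  rw [Finset.sum_congr rfl fun ω _ => e1 ω, sum_prod2 (fun (y x : Fin n) (b : Bool) =>
    wt (p x y) b * ((if x < y ∧ b = true then (if σ x = σ y then 0 else r) else 1) *
        (if x < y ∧ b = true then (if τ x = τ y then 0 else r) else 1)))]
  have e2 : r ^ 2 * Pst p σ τ - r ^ 2 * (Ps p σ + Ps p τ) + (r ^ 2 - 1) * PP p =
      ∑ y : Fin n, ∑ x : Fin n, (r ^ 2 * (if x < y ∧ σ x = σ y ∧ τ x = τ y then p x y else 0) -
        r ^ 2 * ((if x < y ∧ σ x = σ y then p x y else 0) +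
          (if x < y ∧ τ x = τ y then p x y else 0)) +
        (r ^ 2 - 1) * (if x < y then p x y else 0)) := by
    unfold Pst Ps PP
    simp only [Finset.sum_add_distrib, Finset.sum_sub_distrib, ← Finset.mul_sum]
  rw [e2, Real.exp_sum]
  refine Finset.prod_le_prod ?_ ?_
  · intro y _
    refine Finset.prod_nonneg fun x _ => ?_
    have hp0 := h0 x y
    have hp1 := h1 x y
    have hr0 : 0 ≤ r := by linarith
    have a1 : 0 ≤ (if x < y ∧ true = true then (if σ x = σ y then 0 else r) else 1) := by
      split_ifs <;> linarith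
    have a2 : 0 ≤ (if x < y ∧ true = true then (if τ x = τ y then 0 else r) else 1) := by
      split_ifs <;> linarith
    have a3 : 0 ≤ wt (p x y) true := by simpa [wt] using hp0
    have a4 : 0 ≤ wt (p x y) false := by simpa [wt] using hp1
    refine add_nonneg (mul_nonneg a3 (mul_nonneg a1 a2)) ?_
    simpa using a4
  · intro y _
    rw [Real.exp_sum]
    refine Finset.prod_le_prod ?_ ?_
    · intro x _
      have hp0 := h0 x y
      have hp1 := h1 x y
      have hr0 : 0 ≤ r := by linarith
      have a1 : 0 ≤ (if x < y ∧ true = true then (if σ x = σ y then 0 else r) else 1) := by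
        split_ifs <;> linarith
      have a2 : 0 ≤ (if x < y ∧ true = true then (if τ x = τ y then 0 else r) else 1) := by
        split_ifs <;> linarith
      have a3 : 0 ≤ wt (p x y) true := by simpa [wt] using hp0
      have a4 : 0 ≤ wt (p x y) false := by simpa [wt] using hp1
      refine add_nonneg (mul_nonneg a3 (mul_nonneg a1 a2)) ?_
      simpa using a4
    · intro x _
      by_cases hxy : x < y
      · by_cases hs : σ x = σ y
        · by_cases ht : τ x = τ y
          · simp only [hxy, hs, ht, wt, and_self, if_true, true_and]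
            simp
            have h8 := Real.add_one_le_exp (-(p x y))
            have h9 : r ^ 2 * p x y - r ^ 2 * (p x y + p x y) + (r ^ 2 - 1) * p x y = -(p x y) := by ring
            rw [h9]
            linarith
          · simp only [hxy, hs, ht, wt, and_self, if_true, true_and]
            simp
            have h8 := Real.add_one_le_exp (-(p x y))
            have h9 : -(r ^ 2 * p x y) + (r ^ 2 - 1) * p x y = -(p x y) := by ring
            rw [h9]
            linarith
        · by_cases ht : τ x = τ y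
          · simp only [hxy, hs, ht, wt, and_self, if_true, true_and]
            simp
            have h8 := Real.add_one_le_exp (-(p x y))
            have h9 : -(r ^ 2 * p x y) + (r ^ 2 - 1) * p x y = -(p x y) := by ring
            rw [h9]
            linarith
          · simp only [hxy, hs, ht, wt, and_self, if_true, true_and]
            simp
            have := Real.add_one_le_exp ((r ^ 2 - 1) * p x y)
            calc p x y * (r * r) + (1 - p x y) ≤ Real.exp ((r ^ 2 - 1) * p x y) := by
                  nlinarith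
              _ ≤ _ := Real.exp_le_exp.mpr (by ring_nf; linarith)
      · simp [hxy, wt]

theorem exp_a {u : ℝ} (h0 : 0 ≤ u) (h1 : u ≤ 1 / 2) : Real.exp (-u - u ^ 2) ≤ 1 - u := by
  have h2 : 1 + (u + u ^ 2) + (u + u ^ 2) ^ 2 / 2 ≤ Real.exp (u + u ^ 2) :=
    Real.quadratic_le_exp_of_nonneg (by positivity)
  have h3 : -u - u ^ 2 = -(u + u ^ 2) := by ring
  rw [h3, Real.exp_neg]
  have h4 : 0 < 1 - u := by linarith
  rw [inv_le_comm₀ (Real.exp_pos _) h4]
  refine le_trans ?_ h2
  rw [inv_le_iff_one_le_mul₀ h4]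
  have h5 : (1 + (u + u ^ 2) + (u + u ^ 2) ^ 2 / 2) * (1 - u) =
      1 + u ^ 2 * (1 - u - u ^ 2 - u ^ 3) / 2 := by ring
  rw [h5]
  have h6 : 0 ≤ 1 - u - u ^ 2 - u ^ 3 := by nlinarith [mul_nonneg h0 h0, mul_nonneg h0 (mul_nonneg h0 h0)]
  have h7 := mul_nonneg (sq_nonneg u) h6
  linarith

theorem exp_b {u : ℝ} (h0 : 0 ≤ u) (h1 : u ≤ 1) : Real.exp (u - u ^ 2) ≤ 1 + u := by
  have h2 : |u - u ^ 2| ≤ 1 := by
    rw [abs_le]
    constructor <;> nlinarith
  have h3 := Real.abs_exp_sub_one_sub_id_le h2
  have h4 := (abs_le.mp h3).2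
  have h5 : (u - u ^ 2) ^ 2 ≤ u ^ 2 := by
    refine pow_le_pow_left₀ (by nlinarith) (by nlinarith) 2
  linarith

theorem t_MOM1 : S_MOM1 := by
  intro n k Δ p σ hn hk hH
  set r : ℝ := (k : ℝ) / (k - 1) with hr
  have hk' : (2 : ℝ) ≤ k := by exact_mod_cast hk
  have hk1 : (0 : ℝ) < k - 1 := by linarith
  have hn' : (3 : ℝ) ≤ n := by exact_mod_cast hn
  have hr1 : 1 ≤ r := by
    rw [hr, le_div_iff₀ (by linarith)]
    linarith
  have hsm : (n : ℝ) ^ (-(9 / 10) : ℝ) ≤ 1 / 2 := by
    have h1 : (n : ℝ) ^ (-(9 / 10) : ℝ) ≤ (3 : ℝ) ^ (-(9 / 10) : ℝ) :=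
      Real.rpow_le_rpow_of_nonpos (by norm_num) hn' (by norm_num)
    have h2 : (3 : ℝ) ^ (-(9 / 10) : ℝ) ≤ 1 / 2 := by
      rw [Real.rpow_neg (by norm_num), one_div]
      refine inv_anti₀ (by norm_num) ?_
      have h3 : (2 : ℝ) = ((2 : ℝ) ^ (10 : ℕ)) ^ (1 / 10 : ℝ) := by
        rw [← Real.rpow_natCast, ← Real.rpow_mul (by norm_num)]
        norm_num
      have h4 : (3 : ℝ) ^ (9 / 10 : ℝ) = ((3 : ℝ) ^ (9 : ℕ)) ^ (1 / 10 : ℝ) := by
        rw [← Real.rpow_natCast, ← Real.rpow_mul (by norm_num)]
        norm_num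
      rw [h3, h4]
      refine Real.rpow_le_rpow (by norm_num) (by norm_num) (by norm_num)
    exact h1.trans h2
  have hp0 : ∀ x y, 0 ≤ p x y := hH.nonneg
  have hph : ∀ x y, p x y ≤ 1 / 2 := fun x y => (hH.small x y).trans hsm
  have e1 : ∀ ω : Fin n → Fin n → Bool,
      mu p ω * ((if Prp ω σ then 1 else 0) * r ^ ms ω) =
      ∏ y, ∏ x, (fun (y x : Fin n) (b : Bool) => wt (p x y) b *
        (if x < y ∧ b = true then (if σ x = σ y then 0 else r) else 1)) y x (ω y x) := by
    intro ω
    rw [ind_pow]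
    unfold mu
    simp only [Finset.prod_mul_distrib]
  rw [Finset.sum_congr rfl fun ω _ => e1 ω, sum_prod2 (fun (y x : Fin n) (b : Bool) =>
    wt (p x y) b * (if x < y ∧ b = true then (if σ x = σ y then 0 else r) else 1))]
  have hsq : ∑ y : Fin n, ∑ x : Fin n, (if x < y then p x y ^ 2 else 0) ≤
      (n : ℝ) ^ (1 / 10 : ℝ) * Δ := by
    have h1 : ∀ y x : Fin n, (if x < y then p x y ^ 2 else 0) ≤
        (n : ℝ) ^ (-(9 / 10) : ℝ) * p y x := by
      intro y x
      rw [hH.symm y x]
      split_ifs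
      · rw [sq]
        exact mul_le_mul_of_nonneg_right (hH.small x y) (hp0 x y)
      · exact mul_nonneg (by positivity) (hp0 x y)
    calc ∑ y : Fin n, ∑ x : Fin n, (if x < y then p x y ^ 2 else 0)
        ≤ ∑ y : Fin n, ∑ x : Fin n, (n : ℝ) ^ (-(9 / 10) : ℝ) * p y x :=
          Finset.sum_le_sum fun y _ => Finset.sum_le_sum fun x _ => h1 y x
      _ = (n : ℝ) ^ (-(9 / 10) : ℝ) * ∑ y : Fin n, ∑ x : Fin n, p y x := by
          simp only [← Finset.mul_sum]
      _ ≤ (n : ℝ) ^ (-(9 / 10) : ℝ) * ∑ y : Fin n, Δ := by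
          refine mul_le_mul_of_nonneg_left (Finset.sum_le_sum fun y _ => hH.deg y) (by positivity)
      _ = (n : ℝ) ^ (1 / 10 : ℝ) * Δ := by
          rw [Finset.sum_const, card_univ, Fintype.card_fin, nsmul_eq_mul, ← mul_assoc]
          congr 1
          have h5 : (n : ℝ) ^ (-(9 / 10) : ℝ) * (n : ℝ) =
              (n : ℝ) ^ (-(9 / 10) : ℝ) * (n : ℝ) ^ (1 : ℝ) := by rw [Real.rpow_one]
          rw [h5, ← Real.rpow_add (by linarith)]
          norm_num
  have e2 : (PP p - k * Ps p σ) / (k - 1) - ∑ y : Fin n, ∑ x : Fin n,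
      (if x < y then p x y ^ 2 else 0) =
      ∑ y : Fin n, ∑ x : Fin n, (((if x < y then p x y else 0) -
        k * (if x < y ∧ σ x = σ y then p x y else 0)) / (k - 1) -
        (if x < y then p x y ^ 2 else 0)) := by
    unfold Ps PP
    simp only [Finset.sum_sub_distrib, ← Finset.mul_sum, ← Finset.sum_div]
  refine (Real.exp_le_exp.mpr (sub_le_sub_left hsq _)).trans ?_
  rw [e2, Real.exp_sum]
  refine Finset.prod_le_prod (fun y _ => (Real.exp_pos _).le) ?_
  intro y _
  rw [Real.exp_sum]
  refine Finset.prod_le_prod (fun x _ => (Real.exp_pos _).le) ?_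
  intro x _
  have q0 := hp0 x y
  have q1 := hph x y
  by_cases hxy : x < y
  · by_cases hs : σ x = σ y
    · simp only [hxy, hs, wt, and_self, if_true, true_and]
      simp
      refine le_trans (Real.exp_le_exp.mpr ?_) (exp_a q0 q1)
      have : (p x y - k * p x y) / (k - 1) = - p x y := by
        field_simp
        ring
      rw [this]
    · simp only [hxy, hs, wt, if_true, true_and]
      simp
      have hu0 : 0 ≤ p x y / (k - 1) := div_nonneg q0 hk1.le
      have hu1 : p x y / (k - 1) ≤ p x y := by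
        rw [div_le_iff₀ hk1]
        nlinarith
      have h6 := exp_b hu0 (by linarith : p x y / (k - 1) ≤ 1)
      have h7 : p x y * r + (1 - p x y) = 1 + p x y / (k - 1) := by
        rw [hr]
        field_simp
        ring
      rw [h7]
      refine le_trans (Real.exp_le_exp.mpr ?_) h6
      have := pow_le_pow_left₀ hu0 hu1 2
      linarith
  · simp [hxy, wt]

end Run7.h925.RG
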